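import Pool.Agent.R708.IC.Main

/-!
# MP_b87388_al

There is a finite group `G` (the affine group `AGL(1,8)` of order 56) for which the rational
incidence algebra of the poset `Sub_G/G` of conjugacy classes of subgroups and the category of
rational coefficient systems have different global dimensions: the first is at most `2`, the second
is at least `3`.

The definitions `gldim`, `SubCl`, `OrbitCat`, `Coef` are in `Pool/Agent/R708/IC/Defs.lean`.
-/

open CategoryTheory IncCoef

namespace Pool.Agent.Results.MP_b87388_al.GlobalDimensionsDiffer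

/-- Q1: proved. -/
theorem result :
    ∃ (G : Type) (_ : Group G) (_ : Finite G),
      gldim (ModuleCat.{0} (IncidenceAlgebra ℚ (SubCl G))) ≠ gldim (Coef G) ∧
      gldim (ModuleCat.{0} (IncidenceAlgebra ℚ (SubCl G))) ≤ 2 ∧ 3 ≤ gldim (Coef G) := by
  have hK : Nat.card (GaloisField 2 3) = 8 := by
    rw [GaloisField.card 2 3 (by norm_num)]
    norm_num
  have h1 := gldim_le (K := GaloisField 2 3) hK
  have h2 := gldim_ge (K := GaloisField 2 3) hK
  refine ⟨Aff (GaloisField 2 3), inferInstance, inferInstance, fun h => ?_, h1, h2⟩
  rw [← h] at h2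
  have h3 : (3 : WithBot ℕ∞) ≤ 2 := h2.trans h1
  exact absurd h3 (by decide)

end Pool.Agent.Results.MP_b87388_al.GlobalDimensionsDiffer
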